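import Pool.Agent.H98.Fib.Assembly4
import Pool.Agent.H98.Fib.Elem
import Pool.Agent.H68.FibC.D.CertD
import Pool.Agent.H68.FibC.D.St

/-!
# The square Fibonacci Hamiltonian: the three spectral regimes do not exist

`specSq lam` is the spectrum of the square Fibonacci Hamiltonian with coupling `lam` on `ℓ²(ℤ × ℤ)` (`specSq_eq`: it is
the spectrum, in Mathlib's sense, of the bounded operator `H2 lam`). The statement of Q1 (`Elem.Trichotomy`: a finite
union of intervals for all couplings below `lam'`, a Cantorval for all couplings between `lam'` and `lam''`, a Cantor
set for all couplings above `lam''`) is false: for every coupling with `|lam - 1.394| ≤ 10⁻⁹` the spectrum has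
infinitely many gaps and, at the same time, an isolated component with interior, so that it is none of the three.

The proof: the spectrum is `Sig lam + Sig lam` for the dynamically defined spectrum `Sig lam` (`Spec1`, `Spec2`,
`Assembly`). The lowest block of `Sig lam` is a ternary tree of hulls given by the trace map; the hulls are enclosed by
Taylor models on 37 classes of words (`Pool.Agent.H20.Fib`). The gaps at all scales near the bottom of the spectrum
come from inequalities between the hulls (`DIneq`, `DIneq2`); that two sums of subtrees are full intervals is proved by
a certificate of several hundred thousand claims on pairs of the 126 types of words, checked by the kernel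
(`Pool.Agent.H68.FibC`).
-/

namespace Pool.Agent.Results.MP_9069b3_mp.NoTrichotomy

open Pool.Agent.H98.Fib

/-- **Q1 is false.** For every coupling with `|lam - 1.394| ≤ 10⁻⁹` the spectrum of the square Fibonacci Hamiltonian
is neither a finite union of intervals nor a Cantorval nor a Cantor set, and it has an isolated connected component
with nonempty interior; so there are no `0 < lam' < lam''` as in the statement of Q1 (`Elem.Trichotomy`). -/
theorem result :
    ¬ Elem.Trichotomy ∧ ∀ lam : ℝ, |lam - 1394 / 1000| ≤ 1 / 1000000000 →
      ¬ IsFiniteUnionOfIntervals (Elem.specSq lam) ∧ ¬ IsCantorval (Elem.specSq lam) ∧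
      ¬ IsCantorSet (Elem.specSq lam) ∧
      ∃ x ∈ Elem.specSq lam, IsIsolatedComponent (Elem.specSq lam) x ∧
        (interior (connectedComponentIn (Elem.specSq lam) x)).Nonempty := by
  have h := final_of_cert Pool.Agent.H68.FibC.cert (by simp) (by simp)
    Pool.Agent.H68.FibC.st_7_1_2 Pool.Agent.H68.FibC.st_90_0_1
  refine ⟨fun ht => h.1 (Elem.trichotomy_iff.1 ht), fun lam hl => ?_⟩
  rw [Elem.specSq_eq]
  exact h.2 lam hl

end Pool.Agent.Results.MP_9069b3_mp.NoTrichotomy
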